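import Pool.Agent.Helper58.IQ.Char

/-! S4a, S4b of the project of helper58 on MP_b529ab_nt: Conjecture A is invariant under
isomorphism, and holds for a direct sum iff it holds for the summands. -/

set_option autoImplicit false

open scoped NumberField

namespace Pool.Agent.Helper69.RY

open Pool.Agent.Helper58.IQ

theorem adm_of_iso {K : Type*} [Field K] {p : ℕ} {M N : Type*} [AddCommGroup M]
    [AddCommGroup N] {ρ : GK K →* AddMonoid.End M} {σ : GK K →* AddMonoid.End N} (e : M ≃+ N)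
    (he : ∀ g m, e (ρ g m) = σ g (e m)) {S : Set (Ideal (𝓞 K))} (h : Adm p ρ S) :
    Adm p σ S := by
  refine ⟨h.1, fun P h1 h2 h3 => ⟨(h.2 P h1 h2 h3).1, fun g hg => ?_⟩⟩
  have h4 := (h.2 P h1 h2 h3).2 g hg
  ext n
  have h5 := he g (e.symm n)
  rw [h4, e.apply_symm_apply] at h5
  rw [← h5]
  exact e.apply_symm_apply n

theorem h2_of_iso {K : Type*} [Field K] {p : ℕ} [Fact p.Prime] {M N : Type*} [AddCommGroup M]
    [AddCommGroup N] {ρ : GK K →* AddMonoid.End M} {σ : GK K →* AddMonoid.End N} (e : M ≃+ N)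
    (he : ∀ g m, e (ρ g m) = σ g (e m)) {S : Set (Ideal (𝓞 K))} (h : H2Zero p S ρ) :
    H2Zero p S σ := by
  intro f h1 h2 h3
  have he' : ∀ g n, e.symm (σ g n) = ρ g (e.symm n) := by
    intro g n
    apply e.injective
    rw [he, e.apply_symm_apply, e.apply_symm_apply]
  obtain ⟨u, u1, u2, u3⟩ := h (fun g h => e.symm (f g h)) (h1.comp e.symm)
    (fun g h n m hn hm => by rw [h2 g h n m hn hm]) (fun g h k => by
      rw [← he', ← map_sub, ← map_add, ← map_sub, h3, map_zero])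
  refine ⟨fun g => e (u g), u1.comp e, fun g n hn => ?_, fun g h => ?_⟩
  · change e (u (g * n)) = e (u g)
    rw [u2 g n hn]
  · change f g h = σ g (e (u h)) - e (u (g * h)) + e (u g)
    rw [← he, ← map_sub, ← map_add, ← u3, e.apply_symm_apply]

theorem conjA_of_iso {K : Type*} [Field K] {p : ℕ} [Fact p.Prime] {M N : Type*} [AddCommGroup M]
    [AddCommGroup N] {ρ : GK K →* AddMonoid.End M} {σ : GK K →* AddMonoid.End N} (e : M ≃+ N)
    (he : ∀ g m, e (ρ g m) = σ g (e m)) (h : ConjA p ρ) : ConjA p σ := by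
  intro S hS
  have he' : ∀ g n, e.symm (σ g n) = ρ g (e.symm n) := by
    intro g n
    apply e.injective
    rw [he, e.apply_symm_apply, e.apply_symm_apply]
  exact h2_of_iso e he (h S (adm_of_iso e.symm he' hS))

theorem conjA_iso {K : Type*} [Field K] (p : ℕ) [Fact p.Prime] {M N : Type*} [AddCommGroup M]
    [AddCommGroup N] {ρ : GK K →* AddMonoid.End M} {σ : GK K →* AddMonoid.End N}
    (h : Iso ρ σ) : ConjA p ρ ↔ ConjA p σ := by
  obtain ⟨e, he⟩ := h
  refine ⟨conjA_of_iso e he, conjA_of_iso e.symm ?_⟩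
  intro g n
  apply e.injective
  rw [he, e.apply_symm_apply, e.apply_symm_apply]

theorem conjA_prod {K : Type*} [Field K] (p : ℕ) [Fact p.Prime] {M N : Type*} [AddCommGroup M]
    [AddCommGroup N] (ρ : GK K →* AddMonoid.End M) (σ : GK K →* AddMonoid.End N)
    (h : ∀ P : Ideal (𝓞 (Kb K)), P.IsPrime → P ≠ ⊥ → (p : 𝓞 (Kb K)) ∉ P →
      ((∀ g ∈ inert P, ρ g = 1) ↔ (∀ g ∈ inert P, σ g = 1))) :
    ConjA p (prodRep ρ σ) ↔ ConjA p ρ ∧ ConjA p σ := by
  have e1 : ∀ g, prodRep ρ σ g = 1 ↔ ρ g = 1 ∧ σ g = 1 := by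
    intro g
    constructor
    · intro h1
      constructor
      · ext m
        exact congrArg Prod.fst (DFunLike.congr_fun h1 (m, 0))
      · ext n
        exact congrArg Prod.snd (DFunLike.congr_fun h1 (0, n))
    · rintro ⟨h1, h2⟩
      refine AddMonoidHom.ext fun x => ?_
      change (ρ g x.1, σ g x.2) = x
      rw [h1, h2]
      rfl
  -- admissible sets
  have a1 : ∀ S, Adm p (prodRep ρ σ) S → Adm p ρ S ∧ Adm p σ S := by
    intro S hS
    exact ⟨⟨hS.1, fun P h1 h2 h3 => ⟨(hS.2 P h1 h2 h3).1, fun g hg =>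
        ((e1 g).1 ((hS.2 P h1 h2 h3).2 g hg)).1⟩⟩,
      ⟨hS.1, fun P h1 h2 h3 => ⟨(hS.2 P h1 h2 h3).1, fun g hg =>
        ((e1 g).1 ((hS.2 P h1 h2 h3).2 g hg)).2⟩⟩⟩
  have a2 : ∀ S, Adm p ρ S → Adm p (prodRep ρ σ) S := by
    intro S hS
    refine ⟨hS.1, fun P h1 h2 h3 => ⟨(hS.2 P h1 h2 h3).1, fun g hg => (e1 g).2 ?_⟩⟩
    have h4 := hS.2 P h1 h2 h3
    exact ⟨h4.2 g hg, (h P h1 h2 h4.1).1 h4.2 g hg⟩
  have a3 : ∀ S, Adm p σ S → Adm p (prodRep ρ σ) S := by
    intro S hS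
    refine ⟨hS.1, fun P h1 h2 h3 => ⟨(hS.2 P h1 h2 h3).1, fun g hg => (e1 g).2 ?_⟩⟩
    have h4 := hS.2 P h1 h2 h3
    exact ⟨(h P h1 h2 h4.1).2 h4.2 g hg, h4.2 g hg⟩
  constructor
  · intro hA
    constructor
    · intro S hS f h1 h2 h3
      obtain ⟨u, u1, u2, u3⟩ := hA S (a2 S hS) (fun g h => (f g h, (0 : N)))
        (h1.comp fun x => (x, (0 : N))) (fun g h n m hn hm => by rw [h2 g h n m hn hm])
        (fun g h k => by
          rw [prodRep_apply]
          refine Prod.ext ?_ ?_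
          · exact h3 g h k
          · change σ (g : GK K) 0 - 0 + 0 - 0 = (0 : N)
            rw [map_zero]
            simp)
      refine ⟨fun g => (u g).1, u1.comp Prod.fst, fun g n hn => ?_, fun g h => ?_⟩
      · change (u (g * n)).1 = (u g).1
        rw [u2 g n hn]
      · exact congrArg Prod.fst (u3 g h)
    · intro S hS f h1 h2 h3
      obtain ⟨u, u1, u2, u3⟩ := hA S (a3 S hS) (fun g h => ((0 : M), f g h))
        (h1.comp fun x => ((0 : M), x)) (fun g h n m hn hm => by rw [h2 g h n m hn hm])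
        (fun g h k => by
          rw [prodRep_apply]
          refine Prod.ext ?_ ?_
          · change ρ (g : GK K) 0 - 0 + 0 - 0 = (0 : M)
            rw [map_zero]
            simp
          · exact h3 g h k)
      refine ⟨fun g => (u g).2, u1.comp Prod.snd, fun g n hn => ?_, fun g h => ?_⟩
      · change (u (g * n)).2 = (u g).2
        rw [u2 g n hn]
      · exact congrArg Prod.snd (u3 g h)
  · rintro ⟨hρ, hσ⟩ S hS f h1 h2 h3
    obtain ⟨u, u1, u2, u3⟩ := hρ S (a1 S hS).1 (fun g h => (f g h).1) (h1.comp Prod.fst)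
      (fun g h n m hn hm => by rw [h2 g h n m hn hm])
      (fun g h k => congrArg Prod.fst (h3 g h k))
    obtain ⟨v, v1, v2, v3⟩ := hσ S (a1 S hS).2 (fun g h => (f g h).2) (h1.comp Prod.snd)
      (fun g h n m hn hm => by rw [h2 g h n m hn hm])
      (fun g h k => congrArg Prod.snd (h3 g h k))
    refine ⟨fun g => (u g, v g), u1.prodMk v1, fun g n hn => ?_, fun g h => ?_⟩
    · change (u (g * n), v (g * n)) = (u g, v g)
      rw [u2 g n hn, v2 g n hn]
    · exact Prod.ext (u3 g h) (v3 g h)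

end Pool.Agent.Helper69.RY
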