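import Mathlib

/-! Ryley's identity and the path of cubic twists (project of helper58 on MP_b529ab_nt). -/

set_option autoImplicit false

namespace Pool.Agent.Helper69.RY

/-- Ryley's identity: every element is a sum of three cubes, if `r ^ 2 + 9 r + 81 ≠ 0`. -/
theorem ryley {K : Type*} [Field K] [CharZero K] (r : K) (h : r ^ 2 + 9 * r + 81 ≠ 0) :
    r = ((r - 9) / 9) ^ 3 + ((-r ^ 3 + 243 * r + 729) / (9 * (r ^ 2 + 9 * r + 81))) ^ 3 +
      (3 * r * (r + 9) / (r ^ 2 + 9 * r + 81)) ^ 3 := by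
  obtain ⟨q, hq⟩ : ∃ q, q = r ^ 2 + 9 * r + 81 := ⟨_, rfl⟩
  rw [← hq] at h ⊢
  field_simp
  rw [hq]
  ring

/-- there is a nonzero `t` such that `r = δ t ^ 3` satisfies `r ^ 2 + 9 r + 81 ≠ 0` -/
theorem exists_good {K : Type*} [Field K] [CharZero K] (δ : K) :
    ∃ t : K, t ≠ 0 ∧ (δ * t ^ 3) ^ 2 + 9 * (δ * t ^ 3) + 81 ≠ 0 := by
  classical
  by_contra hcon
  push Not at hcon
  let p : Polynomial K := (Polynomial.C δ * Polynomial.X ^ 3) ^ 2 +
    9 * (Polynomial.C δ * Polynomial.X ^ 3) + 81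
  have hp : p ≠ 0 := by
    intro h
    have h0 : p.eval 0 = 0 := by rw [h, Polynomial.eval_zero]
    simp [p] at h0
  have hfin : (p.roots.toFinset : Set K).Finite := Finset.finite_toSet _
  have hsub : {t : K | t ≠ 0} ⊆ (p.roots.toFinset : Set K) := by
    intro t ht
    have := hcon t ht
    simp only [Finset.mem_coe, Multiset.mem_toFinset]
    rw [Polynomial.mem_roots hp, Polynomial.IsRoot]
    simpa [p] using this
  have hinf : ({t : K | t ≠ 0}).Infinite := by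
    have : ({t : K | t ≠ 0}) = ({0} : Set K)ᶜ := by ext; simp
    rw [this]
    exact (Set.finite_singleton 0).infinite_compl
  exact hinf (hfin.subset hsub)

/-- **S3.** A property of pairs `(d, δ)` which depends only on `d` modulo squares and `δ` modulo
cubes, and is invariant under `(d, δ) ↦ (-3 d, a ^ 3 - δ)`, does not depend on `δ`. -/
theorem s3 {K : Type*} [Field K] [CharZero K] (P : K → K → Prop)
    (hcl : ∀ d δ s t : K, d ≠ 0 → δ ≠ 0 → s ≠ 0 → t ≠ 0 → (P (d * s ^ 2) (δ * t ^ 3) ↔ P d δ))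
    (hiso : ∀ d δ a : K, d ≠ 0 → δ ≠ 0 → a ^ 3 ≠ δ → (P d δ ↔ P (-3 * d) (a ^ 3 - δ)))
    (d δ : K) (hd : d ≠ 0) (hδ : δ ≠ 0) : P d δ ↔ P d 1 := by
  have h3 : (-3 : K) ≠ 0 := by norm_num
  have h3' : (3 : K) ≠ 0 := by norm_num
  -- two steps
  have step : ∀ δ a b : K, δ ≠ 0 → a ^ 3 ≠ δ → δ - a ^ 3 - b ^ 3 ≠ 0 →
      (P d δ ↔ P d (δ - a ^ 3 - b ^ 3)) := by
    intro δ a b h0 ha hb
    rw [hiso d δ a hd h0 ha, hiso (-3 * d) (a ^ 3 - δ) (-b) (mul_ne_zero h3 hd) (sub_ne_zero.2 ha)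
      (by
        intro h
        apply hb
        have : (-b) ^ 3 = -b ^ 3 := by ring
        rw [this] at h
        linear_combination h)]
    have e1 : -3 * (-3 * d) = d * 3 ^ 2 := by ring
    have e2 : (-b) ^ 3 - (a ^ 3 - δ) = (δ - a ^ 3 - b ^ 3) * 1 ^ 3 := by ring
    rw [e1, e2, hcl d _ 3 1 hd hb h3' one_ne_zero]
  -- cubes
  have cube : ∀ z : K, z ≠ 0 → (P d (z ^ 3) ↔ P d 1) := by
    intro z hz
    have := hcl d 1 1 z hd one_ne_zero one_ne_zero hz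
    simpa using this
  -- sums of three cubes
  have key : ∀ x y z : K, z ≠ 0 → x ^ 3 + y ^ 3 + z ^ 3 ≠ 0 →
      (P d (x ^ 3 + y ^ 3 + z ^ 3) ↔ P d 1) := by
    intro x y z hz h0
    by_cases hx : x ^ 3 = x ^ 3 + y ^ 3 + z ^ 3
    · rw [← hx]
      refine cube x ?_
      rintro rfl
      apply h0
      rw [← hx]
      ring
    · rw [step _ x y h0 hx (by
        have : x ^ 3 + y ^ 3 + z ^ 3 - x ^ 3 - y ^ 3 = z ^ 3 := by ring
        rw [this]
        exact pow_ne_zero 3 hz)]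
      have : x ^ 3 + y ^ 3 + z ^ 3 - x ^ 3 - y ^ 3 = z ^ 3 := by ring
      rw [this]
      exact cube z hz
  obtain ⟨t, ht, hg⟩ := exists_good δ
  have hr0 : δ * t ^ 3 ≠ 0 := mul_ne_zero hδ (pow_ne_zero 3 ht)
  have h1 := hcl d δ 1 t hd hδ one_ne_zero ht
  rw [one_pow, mul_one] at h1
  rw [← h1]
  have hry := ryley (δ * t ^ 3) hg
  generalize ((δ * t ^ 3 - 9) / 9) = x at hry
  generalize ((-(δ * t ^ 3) ^ 3 + 243 * (δ * t ^ 3) + 729) /
    (9 * ((δ * t ^ 3) ^ 2 + 9 * (δ * t ^ 3) + 81))) = y at hry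
  generalize (3 * (δ * t ^ 3) * (δ * t ^ 3 + 9) /
    ((δ * t ^ 3) ^ 2 + 9 * (δ * t ^ 3) + 81)) = z at hry
  rw [hry] at hr0 ⊢
  by_cases hz : z = 0
  · by_cases hy : y = 0
    · have hx : x ≠ 0 := by
        rintro rfl
        apply hr0
        rw [hz, hy]
        ring
      have e : x ^ 3 + y ^ 3 + z ^ 3 = y ^ 3 + z ^ 3 + x ^ 3 := by ring
      rw [e] at hr0 ⊢
      exact key y z x hx hr0
    · have e : x ^ 3 + y ^ 3 + z ^ 3 = x ^ 3 + z ^ 3 + y ^ 3 := by ring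
      rw [e] at hr0 ⊢
      exact key x z y hy hr0
  · exact key x y z hz hr0

end Pool.Agent.Helper69.RY
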