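import Pool.Agent.Helper58.IQ.Curve
import Pool.Agent.Helper69.RY.S3

/-! Devissage for isogenies, in the form of the frame of helper58 (MP_b529ab_nt). -/

set_option autoImplicit false

namespace Pool.Agent.Helper69.RY

open Pool.Agent.Helper58.IQ Function

theorem path {K : Type*} [Field K] [CharZero K] (Q : K → K → Prop)
    (hsq : ∀ d δ u c : K, d ≠ 0 → δ ≠ 0 → u ≠ 0 → c ≠ 0 → (Q d δ ↔ Q (d * u ^ 2) (δ * c ^ 3)))
    (hst : ∀ d δ a : K, d ≠ 0 → δ ≠ 0 → a ^ 3 ≠ δ → (Q d δ ↔ Q (-3 * d) (a ^ 3 - δ))) :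
    ∀ d δ : K, d ≠ 0 → δ ≠ 0 → (Q d δ ↔ Q d 1) :=
  fun d δ hd hδ => s3 Q (fun d δ u c h1 h2 h3 h4 => (hsq d δ u c h1 h2 h3 h4).symm) hst d δ hd hδ

section S7

variable {G : Type*} [Group G] {A B : Type*} [AddCommGroup A] [AddCommGroup B]
  (ρ : G →* AddMonoid.End A) (σ : G →* AddMonoid.End B) (φ : A →+ B)

/-- Every `3`-torsion point of `B` is the image of a `3`-primary element `P` of `A`. -/
theorem exists_primary (hφ : Surjective φ) (hker : Finite φ.ker) :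
    ∃ k : ℕ, ∀ Q : B, 3 • Q = 0 → ∃ P : A, 3 ^ k • P = 0 ∧ φ (3 • P) = 0 ∧ φ P = Q := by
  set e := AddMonoid.exponent φ.ker with he
  have he0 : e ≠ 0 := AddMonoid.exponent_ne_zero_of_finite
  obtain ⟨j, u, hu, heu⟩ := Nat.exists_eq_pow_mul_and_not_dvd he0 3 (by norm_num)
  have hcop : Nat.Coprime u 3 := ((Nat.prime_three.coprime_iff_not_dvd).2 hu).symm
  -- `v u` is congruent to one modulo three
  obtain ⟨v, hv⟩ : ∃ v : ℕ, ∃ w : ℕ, v * u = 1 + 3 * w := by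
    have h1 : u % 3 = 1 ∨ u % 3 = 2 := by omega
    rcases h1 with h | h
    · exact ⟨1, u / 3, by omega⟩
    · exact ⟨2, (2 * u) / 3, by omega⟩
  obtain ⟨w, hw⟩ := hv
  refine ⟨j + 1, fun Q hQ => ?_⟩
  obtain ⟨P, rfl⟩ := hφ Q
  have h3 : φ (3 • P) = 0 := by rw [map_nsmul, hQ]
  have h4 : e • (3 • P) = 0 := by
    have := AddMonoid.exponent_nsmul_eq_zero (⟨3 • P, h3⟩ : φ.ker)
    exact congrArg Subtype.val this
  refine ⟨(v * u) • P, ?_, ?_, ?_⟩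
  · have : 3 ^ (j + 1) * (v * u) = v * (e * 3) := by rw [heu]; ring
    rw [← mul_nsmul', this, mul_nsmul', mul_nsmul', h4, nsmul_zero]
  · rw [← mul_nsmul', mul_comm, mul_nsmul', map_nsmul, h3, nsmul_zero]
  · rw [hw, map_nsmul, add_nsmul, one_nsmul, mul_comm, mul_nsmul', hQ, nsmul_zero, add_zero]

theorem devissage (hφ : Function.Surjective φ) (hker : Finite φ.ker)
    (he : ∀ g a, φ (ρ g a) = σ g (φ a)) (T : AddSubgroup A) (hT : ∀ P ∈ T, 3 • P = 0)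
    (χ₁ χ₂ : G → ℤ) (h1 : ∀ g, ∀ P ∈ T, ρ g P = χ₁ g • P)
    (h2 : ∀ g, ∀ P : A, 3 • P = 0 → ρ g P - χ₂ g • P ∈ T)
    (hB : ∃ Q : B, Q ≠ 0 ∧ 3 • Q = 0) :
    ∃ Q : B, Q ≠ 0 ∧ 3 • Q = 0 ∧
      ((∀ g, σ g Q = χ₁ g • Q) ∨ (∀ g, σ g Q = χ₂ g • Q)) := by
  classical
  obtain ⟨k, hk⟩ := exists_primary φ hφ hker
  obtain ⟨Q, hQ0, hQ⟩ := hB
  obtain ⟨P, hP1, hP2, rfl⟩ := hk Q hQ
  -- the least `i` for which the `3 ^ i`-torsion contains a suitable element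
  have hex : ∃ i, ∃ P : A, 3 ^ i • P = 0 ∧ φ (3 • P) = 0 ∧ φ P ≠ 0 := ⟨k, P, hP1, hP2, hQ0⟩
  obtain ⟨P', hP'1, hP'2, hP'3⟩ := Nat.find_spec hex
  have hmin : ∀ m < Nat.find hex, ∀ P : A, 3 ^ m • P = 0 → φ (3 • P) = 0 → φ P = 0 := by
    intro m hm P h1 h2
    by_contra h3
    exact Nat.find_min hex hm ⟨P, h1, h2, h3⟩
  generalize Nat.find hex = i0 at hP'1 hmin
  have hi0 : i0 ≠ 0 := by
    rintro rfl
    rw [pow_zero, one_nsmul] at hP'1
    rw [hP'1, map_zero] at hP'3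
    exact hP'3 rfl
  obtain ⟨i, rfl⟩ : ∃ i, i0 = i + 1 := ⟨i0 - 1, by omega⟩
  have hlow : ∀ P : A, 3 ^ i • P = 0 → φ (3 • P) = 0 → φ P = 0 := hmin i (Nat.lt_succ_self i)
  have hstep : ∀ (g : G) (c : ℤ) (P : A), φ (3 • P) = 0 → φ (3 • (ρ g P - c • P)) = 0 := by
    intro g c P h
    rw [map_nsmul] at h
    rw [map_nsmul, map_sub, he, map_zsmul, nsmul_sub, ← map_nsmul (σ g), h, map_zero,
      smul_comm (3 : ℕ) c (φ P), h, smul_zero, sub_zero]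
  have hmul : ∀ (g : G) (c : ℤ) (P : A), 3 ^ i • (ρ g P - c • P) =
      ρ g (3 ^ i • P) - c • (3 ^ i • P) := by
    intro g c P
    rw [nsmul_sub, map_nsmul, smul_comm (3 ^ i : ℕ) c P]
  have h3Q : ∀ P : A, φ (3 • P) = 0 → 3 • φ P = 0 := fun P h => by rw [← map_nsmul, h]
  by_cases hodd : ∃ P : A, 3 ^ i • P ∈ T ∧ φ (3 • P) = 0 ∧ φ P ≠ 0
  · obtain ⟨P, hPT, hP3, hP0⟩ := hodd
    refine ⟨φ P, hP0, h3Q P hP3, Or.inl fun g => ?_⟩
    have := hlow (ρ g P - χ₁ g • P) (by rw [hmul, h1 g _ hPT, sub_self]) (hstep g _ P hP3)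
    rw [map_sub, he, map_zsmul, sub_eq_zero] at this
    exact this
  · push Not at hodd
    refine ⟨φ P', hP'3, h3Q P' hP'2, Or.inr fun g => ?_⟩
    have h3i : 3 • (3 ^ i • P') = 0 := by rw [← mul_nsmul', ← pow_succ', hP'1]
    have := hodd (ρ g P' - χ₂ g • P') (by rw [hmul]; exact h2 g _ h3i) (hstep g _ P' hP'2)
    rw [map_sub, he, map_zsmul, sub_eq_zero] at this
    exact this

theorem iso_of_simple (hφ : Function.Surjective φ) (hker : Finite φ.ker)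
    (he : ∀ g a, φ (ρ g a) = σ g (φ a))
    (hs : ∀ T : AddSubgroup A, (∀ P ∈ T, 3 • P = 0) → (∀ g, ∀ P ∈ T, ρ g P ∈ T) →
      T ≠ ⊥ → ∀ P : A, 3 • P = 0 → P ∈ T)
    (hB : ∃ Q : B, Q ≠ 0 ∧ 3 • Q = 0)
    (hA' : ∀ g, ∀ P ∈ (nsmulAddMonoidHom 3 : A →+ A).ker, ρ g P ∈ (nsmulAddMonoidHom 3 : A →+ A).ker)
    (hB' : ∀ g, ∀ P ∈ (nsmulAddMonoidHom 3 : B →+ B).ker, σ g P ∈ (nsmulAddMonoidHom 3 : B →+ B).ker) :
    Iso (subRep ρ (nsmulAddMonoidHom 3 : A →+ A).ker hA')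
      (subRep σ (nsmulAddMonoidHom 3 : B →+ B).ker hB') := by
  classical
  -- stable subgroups contain the whole torsion of the order of their elements
  have claim : ∀ m : ℕ, ∀ H : AddSubgroup A, (∀ g, ∀ P ∈ H, ρ g P ∈ H) →
      (∃ h ∈ H, 3 ^ m • h ≠ 0 ∧ 3 ^ (m + 1) • h = 0) → ∀ P, 3 ^ (m + 1) • P = 0 → P ∈ H := by
    intro m
    induction m with
    | zero =>
      intro H hH ⟨h, hh, h0, h3⟩ P hP
      rw [zero_add, pow_one] at h3 hP
      rw [pow_zero, one_nsmul] at h0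
      have := hs (H ⊓ (nsmulAddMonoidHom 3 : A →+ A).ker) (fun P hP => hP.2)
        (fun g P hP => ⟨hH g P hP.1, hA' g P hP.2⟩) (by
          intro hbot
          apply h0
          have : h ∈ H ⊓ (nsmulAddMonoidHom 3 : A →+ A).ker := ⟨hh, h3⟩
          rw [hbot] at this
          exact this) P hP
      exact this.1
    | succ m ih =>
      intro H hH ⟨h, hh, h0, h3⟩ P hP
      have hsub := ih H hH ⟨3 • h, H.nsmul_mem hh 3, by
        rw [← mul_nsmul', ← pow_succ]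
        exact h0, by
        rw [← mul_nsmul', ← pow_succ]
        exact h3⟩
      -- the subgroup of the `3 ^ (m + 1) • x`
      let H2 : AddSubgroup A := H ⊓ (nsmulAddMonoidHom (3 ^ (m + 2)) : A →+ A).ker
      let T : AddSubgroup A := H2.map (nsmulAddMonoidHom (3 ^ (m + 1)) : A →+ A)
      have hT1 : ∀ P ∈ T, 3 • P = 0 := by
        rintro _ ⟨x, hx, rfl⟩
        change 3 • (3 ^ (m + 1) • x) = 0
        rw [← mul_nsmul', ← pow_succ']
        exact hx.2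
      have hT2 : ∀ g, ∀ P ∈ T, ρ g P ∈ T := by
        rintro g _ ⟨x, hx, rfl⟩
        refine ⟨ρ g x, ⟨hH g x hx.1, ?_⟩, ?_⟩
        · have hx2 : 3 ^ (m + 2) • x = 0 := hx.2
          change 3 ^ (m + 2) • ρ g x = 0
          rw [← map_nsmul, hx2, map_zero]
        · change 3 ^ (m + 1) • ρ g x = ρ g (3 ^ (m + 1) • x)
          rw [map_nsmul]
      have hT3 : T ≠ ⊥ := by
        intro hbot
        apply h0
        have : 3 ^ (m + 1) • h ∈ T := ⟨h, ⟨hh, h3⟩, rfl⟩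
        rw [hbot] at this
        exact this
      obtain ⟨x, hx, hxP⟩ := hs T hT1 hT2 hT3 (3 ^ (m + 1) • P) (by
        rw [← mul_nsmul', ← pow_succ']
        exact hP)
      have hxP' : 3 ^ (m + 1) • x = 3 ^ (m + 1) • P := hxP
      have h5 : P - x ∈ H := hsub (P - x) (by rw [nsmul_sub, hxP', sub_self])
      have := H.add_mem h5 hx.1
      rwa [sub_add_cancel] at this
  obtain ⟨k, hk⟩ := exists_primary φ hφ hker
  -- the subgroup `L`
  let L : AddSubgroup A := (nsmulAddMonoidHom (3 ^ k) : A →+ A).ker ⊓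
    ((nsmulAddMonoidHom 3 : B →+ B).comp φ).ker
  have hL : ∀ P, P ∈ L ↔ 3 ^ k • P = 0 ∧ 3 • φ P = 0 := fun P => Iff.rfl
  have hLst : ∀ g, ∀ P ∈ L, ρ g P ∈ L := by
    intro g P hP
    rw [hL] at hP ⊢
    rw [← map_nsmul, hP.1, map_zero, he, ← map_nsmul, hP.2, map_zero]
    exact ⟨rfl, rfl⟩
  have hLB : ∀ Q : B, 3 • Q = 0 → ∃ P ∈ L, φ P = Q := by
    intro Q hQ
    obtain ⟨P, h1, h2, h3⟩ := hk Q hQ
    exact ⟨P, (hL P).2 ⟨h1, by rw [h3, hQ]⟩, h3⟩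
  obtain ⟨Q₀, hQ₀, hQ₀3⟩ := hB
  obtain ⟨P₀, hP₀, hP₀Q⟩ := hLB Q₀ hQ₀3
  have hP₀φ : φ P₀ ≠ 0 := by rw [hP₀Q]; exact hQ₀
  -- the exponent of `L`
  have hex : ∃ i, ∀ P ∈ L, 3 ^ i • P = 0 := ⟨k, fun P hP => ((hL P).1 hP).1⟩
  have hspec := Nat.find_spec hex
  have hmin := fun m => Nat.find_min hex (m := m)
  generalize Nat.find hex = i0 at hspec hmin
  have hi0 : i0 ≠ 0 := by
    rintro rfl
    have := hspec P₀ hP₀
    rw [pow_zero, one_nsmul] at this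
    exact hP₀φ (by rw [this, map_zero])
  obtain ⟨j, rfl⟩ : ∃ j, i0 = j + 1 := ⟨i0 - 1, by omega⟩
  obtain ⟨P₁, hP₁, hP₁0⟩ : ∃ P ∈ L, 3 ^ j • P ≠ 0 := by
    have := hmin j (Nat.lt_succ_self j)
    push Not at this
    exact this
  have hker_st : ∀ g, ∀ P ∈ φ.ker, ρ g P ∈ φ.ker := by
    intro g P hP
    rw [AddMonoidHom.mem_ker] at hP ⊢
    rw [he, hP, map_zero]
  -- the `3 ^ j`-torsion is in the kernel
  have hsub : ∀ P : A, 3 ^ j • P = 0 → φ P = 0 := by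
    rcases Nat.eq_zero_or_pos j with rfl | hj
    · intro P hP
      rw [pow_zero, one_nsmul] at hP
      rw [hP, map_zero]
    · obtain ⟨l, rfl⟩ : ∃ l, j = l + 1 := ⟨j - 1, by omega⟩
      apply claim l φ.ker hker_st
      refine ⟨3 • P₁, ?_, ?_, ?_⟩
      · rw [AddMonoidHom.mem_ker, map_nsmul]
        exact ((hL P₁).1 hP₁).2
      · rw [← mul_nsmul', ← pow_succ]
        exact hP₁0
      · rw [← mul_nsmul', ← pow_succ]
        exact hspec P₁ hP₁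
  -- images of stable subgroups of `L`
  have himg : ∀ H : AddSubgroup A, H ≤ L → (∀ g, ∀ P ∈ H, ρ g P ∈ H) →
      (∃ P ∈ H, 3 ^ j • P ≠ 0) → ∀ a : A, 3 • a = 0 → ∃ P ∈ H, 3 ^ j • P = a := by
    intro H hHL hH ⟨P, hP, hP0⟩ a ha
    have := hs (H.map (nsmulAddMonoidHom (3 ^ j) : A →+ A)) (by
        rintro _ ⟨x, hx, rfl⟩
        change 3 • (3 ^ j • x) = 0
        rw [← mul_nsmul', ← pow_succ']
        exact hspec x (hHL hx)) (by
        rintro g _ ⟨x, hx, rfl⟩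
        refine ⟨ρ g x, hH g x hx, ?_⟩
        change 3 ^ j • ρ g x = ρ g (3 ^ j • x)
        rw [map_nsmul]) (by
        intro hbot
        apply hP0
        have : 3 ^ j • P ∈ H.map (nsmulAddMonoidHom (3 ^ j) : A →+ A) := ⟨P, hP, rfl⟩
        rw [hbot] at this
        exact this) a ha
    obtain ⟨x, hx, hxa⟩ := this
    exact ⟨x, hx, hxa⟩
  -- the elements of `L` in the kernel are killed by `3 ^ j`
  have hkj : ∀ P ∈ L, φ P = 0 → 3 ^ j • P = 0 := by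
    intro P hP hP0
    by_contra hne
    apply hP₀φ
    obtain ⟨x, hx, hxa⟩ := himg (L ⊓ φ.ker) inf_le_left
      (fun g P hP => ⟨hLst g P hP.1, hker_st g P hP.2⟩) ⟨P, ⟨hP, hP0⟩, hne⟩ (3 ^ j • P₀) (by
        rw [← mul_nsmul', ← pow_succ']
        exact hspec P₀ hP₀)
    have h5 := hsub (P₀ - x) (by rw [nsmul_sub, hxa, sub_self])
    have hx0 : φ x = 0 := hx.2
    rw [map_sub, hx0, sub_zero] at h5
    exact h5
  -- the two maps
  let α : L →+ (nsmulAddMonoidHom 3 : A →+ A).ker :=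
    ((nsmulAddMonoidHom (3 ^ j) : A →+ A).comp L.subtype).codRestrict _ (fun x => by
      rw [AddMonoidHom.mem_ker]
      change 3 • (3 ^ j • (x : A)) = 0
      rw [← mul_nsmul', ← pow_succ']
      exact hspec x x.2)
  let β : L →+ (nsmulAddMonoidHom 3 : B →+ B).ker :=
    (φ.comp L.subtype).codRestrict _ (fun x => ((hL x).1 x.2).2)
  have hα : ∀ x : L, ((α x : (nsmulAddMonoidHom 3 : A →+ A).ker) : A) = 3 ^ j • (x : A) :=
    fun x => rfl
  have hβ : ∀ x : L, ((β x : (nsmulAddMonoidHom 3 : B →+ B).ker) : B) = φ (x : A) := fun x => rfl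
  have hαs : Surjective α := by
    rintro ⟨a, ha⟩
    obtain ⟨x, hx, hxa⟩ := himg L le_rfl hLst ⟨P₁, hP₁, hP₁0⟩ a ha
    exact ⟨⟨x, hx⟩, Subtype.ext hxa⟩
  have hβs : Surjective β := by
    rintro ⟨b, hb⟩
    obtain ⟨x, hx, hxa⟩ := hLB b hb
    exact ⟨⟨x, hx⟩, Subtype.ext hxa⟩
  have hkk : ∀ x : L, α x = 0 ↔ β x = 0 := by
    intro x
    constructor
    · intro h
      apply Subtype.ext
      rw [hβ]
      exact hsub x (congrArg Subtype.val h)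
    · intro h
      apply Subtype.ext
      rw [hα]
      exact hkj x x.2 (congrArg Subtype.val h)
  -- the isomorphism
  let F : (nsmulAddMonoidHom 3 : A →+ A).ker →+ (nsmulAddMonoidHom 3 : B →+ B).ker :=
    α.liftOfSurjective hαs ⟨β, fun x hx => (hkk x).1 hx⟩
  have hF : ∀ x, F (α x) = β x := fun x =>
    α.liftOfRightInverse_comp_apply (surjInv hαs) (rightInverse_surjInv hαs) ⟨β, _⟩ x
  have hFb : Bijective F := by
    constructor
    · rw [injective_iff_map_eq_zero]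
      intro a ha
      obtain ⟨x, rfl⟩ := hαs a
      rw [hF] at ha
      exact (hkk x).2 ha
    · intro b
      obtain ⟨x, rfl⟩ := hβs b
      exact ⟨α x, hF x⟩
  refine ⟨AddEquiv.ofBijective F hFb, ?_⟩
  intro g a
  obtain ⟨x, rfl⟩ := hαs a
  have e1 : subRep ρ (nsmulAddMonoidHom 3 : A →+ A).ker hA' g (α x) =
      α ⟨ρ g x, hLst g x x.2⟩ := by
    apply Subtype.ext
    change ρ g (3 ^ j • (x : A)) = 3 ^ j • ρ g (x : A)
    rw [map_nsmul]
  change F (subRep ρ (nsmulAddMonoidHom 3 : A →+ A).ker hA' g (α x)) =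
    subRep σ (nsmulAddMonoidHom 3 : B →+ B).ker hB' g (F (α x))
  rw [e1, hF, hF]
  apply Subtype.ext
  change φ (ρ g (x : A)) = σ g (φ (x : A))
  exact he g x

end S7

end Pool.Agent.Helper69.RY
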