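import Pool.Agent.Helper58.IQ.S2c

/-! KU2 of the project of helper58 on MP_b529ab_nt: extensions of one character of order three by
another one are the `3`-torsion modules of elliptic curves. -/

set_option autoImplicit false

open scoped NumberField
open WeierstrassCurve

namespace Pool.Agent.Helper69.RY

open Pool.Agent.Helper58.IQ

theorem unit_eq_of_dvd {u : ℤˣ} (h : (3 : ℤ) ∣ (u : ℤ) - 1) : u = 1 := by
  rcases Int.units_eq_one_or u with h1 | h1
  · exact h1
  · rw [h1] at h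
    norm_num at h

/-- the form of an extension of a module with the character `ψ` by a module with the character
`χ` -/
theorem exists_form {G : Type*} [Group G] {M : Type*} [AddCommGroup M]
    (ρ : G →* AddMonoid.End M) (h3 : ∀ x : M, 3 • x = 0) (N : AddSubgroup M)
    (hN : ∀ g, ∀ x ∈ N, ρ g x ∈ N) (χ ψ : G →* ℤˣ) (h1 : Iso (subRep ρ N hN) (chRep χ))
    (h2 : Iso (quoRep ρ N hN) (chRep ψ)) : ∃ (t w : M) (k : G → ℤ), Form ρ t w χ ψ k := by
  obtain ⟨e1, he1⟩ := h1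
  obtain ⟨e2, he2⟩ := h2
  have hz : ∀ x : ZMod 3, ∃ m : ℤ, x = m • (1 : ZMod 3) := by
    intro x
    refine ⟨(x.val : ℤ), ?_⟩
    simp
  -- the first basis element
  set t : N := e1.symm 1 with ht
  have het : e1 t = 1 := e1.apply_symm_apply 1
  have hspanN : ∀ x ∈ N, ∃ m : ℤ, x = m • (t : M) := by
    intro x hx
    obtain ⟨m, hm⟩ := hz (e1 ⟨x, hx⟩)
    refine ⟨m, ?_⟩
    have : (⟨x, hx⟩ : N) = m • t := by
      apply e1.injective
      rw [hm, map_zsmul, het]
    exact congrArg Subtype.val this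
  have hindN : ∀ m : ℤ, m • (t : M) = 0 → (3 : ℤ) ∣ m := by
    intro m hm
    have h0 : m • t = 0 := Subtype.ext hm
    have h1 := congrArg e1 h0
    rw [map_zsmul, het, map_zero, zsmul_one] at h1
    exact (ZMod.intCast_zmod_eq_zero_iff_dvd m 3).1 h1
  -- the second one
  obtain ⟨w, hw⟩ := QuotientAddGroup.mk_surjective (e2.symm 1)
  have hew : e2 (QuotientAddGroup.mk w : M ⧸ N) = 1 := by rw [hw, e2.apply_symm_apply]
  have hmk : ∀ x : M, ∀ n : ℤ, e2 (QuotientAddGroup.mk x : M ⧸ N) = n • (1 : ZMod 3) →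
      x - n • w ∈ N := by
    intro x n hx
    rw [← QuotientAddGroup.eq_zero_iff]
    apply e2.injective
    change e2 (QuotientAddGroup.mk x - n • (QuotientAddGroup.mk w : M ⧸ N)) = e2 0
    rw [map_sub, map_zsmul, hew, hx, sub_self, map_zero]
  have hgw : ∀ g, ∃ k : ℤ, ρ g w = ((ψ g : ℤˣ) : ℤ) • (w - k • (t : M)) := by
    intro g
    have e3 : e2 (QuotientAddGroup.mk (ρ g w) : M ⧸ N) = ((ψ g : ℤˣ) : ℤ) • (1 : ZMod 3) := by
      have := he2 g (QuotientAddGroup.mk w)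
      rw [hew, chRep_apply] at this
      exact this
    obtain ⟨m, hm⟩ := hspanN _ (hmk _ _ e3)
    refine ⟨-(((ψ g : ℤˣ) : ℤ) * m), ?_⟩
    have hu : ((ψ g : ℤˣ) : ℤ) * ((ψ g : ℤˣ) : ℤ) = 1 := by
      rcases Int.units_eq_one_or (ψ g) with h | h <;> rw [h] <;> norm_num
    rw [neg_zsmul, sub_neg_eq_add, smul_add, smul_smul, ← mul_assoc, hu, one_mul, ← hm]
    abel
  choose k hk using hgw
  refine ⟨t, w, k, h3 _, h3 _, ?_, ?_, ?_, hk⟩
  · intro P
    obtain ⟨n, hn⟩ := hz (e2 (QuotientAddGroup.mk P : M ⧸ N))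
    obtain ⟨m, hm⟩ := hspanN _ (hmk _ _ hn)
    exact ⟨m, n, by rw [← hm]; abel⟩
  · intro m n hmn
    have hn : (3 : ℤ) ∣ n := by
      have h4 : n • w ∈ N := by
        have : n • w = -(m • (t : M)) := by
          rw [eq_neg_iff_add_eq_zero, add_comm]
          exact hmn
        rw [this]
        exact N.neg_mem (N.zsmul_mem t.2 m)
      rw [← QuotientAddGroup.eq_zero_iff] at h4
      have h5 := congrArg e2 h4
      change e2 (n • (QuotientAddGroup.mk w : M ⧸ N)) = e2 0 at h5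
      rw [map_zsmul, hew, map_zero, zsmul_one] at h5
      exact (ZMod.intCast_zmod_eq_zero_iff_dvd n 3).1 h5
    refine ⟨?_, hn⟩
    rw [dvd3 (h3 w) hn, add_zero] at hmn
    exact hindN m hmn
  · intro g
    have h4 := he1 g t
    rw [het, chRep_apply] at h4
    have h5 : subRep ρ N hN g t = ((χ g : ℤˣ) : ℤ) • t := by
      apply e1.injective
      rw [h4, map_zsmul, het]
    exact congrArg Subtype.val h5

section

variable {G : Type*} [Group G] {M : Type*} [AddCommGroup M] {ρ : G →* AddMonoid.End M} {t w : M}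
  {χ ψ : G →* ℤˣ} {k : G → ℤ}

/-- the class of `k` modulo three is a cocycle -/
theorem form_cocycle (h : Form ρ t w χ ψ k) (g g' : G) :
    (3 : ℤ) ∣ k (g * g') - (k g + ((χ g * ψ g : ℤˣ) : ℤ) * k g') := by
  have e1 : ρ (g * g') w = ρ g (ρ g' w) := by
    rw [map_mul]
    rfl
  rw [h.gw, h.gw, map_zsmul, map_sub, map_zsmul, h.gw, h.gt, map_mul] at e1
  have hu : ∀ u : ℤˣ, ((u : ℤ)) * (u : ℤ) = 1 := by
    intro u
    rcases Int.units_eq_one_or u with h | h <;> rw [h] <;> norm_num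
  have e2 : (((ψ g : ℤ) * (ψ g' : ℤ) * k (g * g') -
      ((ψ g : ℤ) * (ψ g' : ℤ) * k g + (ψ g' : ℤ) * (χ g : ℤ) * k g')) • t + (0 : ℤ) • w = 0) := by
    have e3 := sub_eq_zero.2 e1
    rw [zero_zsmul, add_zero, ← neg_eq_zero, ← e3]
    simp only [Units.val_mul, smul_sub, smul_smul, sub_smul, add_smul]
    rw [mul_comm (ψ g' : ℤ) (ψ g : ℤ)]
    have e4 : (ψ g' : ℤ) * (k g' * (χ g : ℤ)) = (ψ g' : ℤ) * (χ g : ℤ) * k g' := by ring
    rw [e4]
    have e5 : (ψ g' : ℤ) * ((ψ g : ℤ) * k g) = (ψ g : ℤ) * (ψ g' : ℤ) * k g := by ring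
    rw [e5]
    abel
  have e6 := (h.ind _ _ e2).1
  have e7 : k (g * g') - (k g + ((χ g * ψ g : ℤˣ) : ℤ) * k g') =
      ((ψ g : ℤ) * (ψ g' : ℤ)) * ((ψ g : ℤ) * (ψ g' : ℤ) * k (g * g') -
      ((ψ g : ℤ) * (ψ g' : ℤ) * k g + (ψ g' : ℤ) * (χ g : ℤ) * k g')) := by
    rw [Units.val_mul]
    linear_combination (-(k (g * g')) + k g) * (hu (ψ g)) * 1 +
      (-(k (g * g')) + k g) * ((ψ g : ℤ) * (ψ g : ℤ)) * (hu (ψ g')) +
      (ψ g : ℤ) * (χ g : ℤ) * k g' * (hu (ψ g'))
  rw [e7]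
  exact Dvd.dvd.mul_left e6 _

theorem form_triv (h : Form ρ t w χ ψ k) {g : G} (hg : ρ g w = w) : (3 : ℤ) ∣ k g := by
  rw [h.gw] at hg
  have e2 : (-((ψ g : ℤ) * k g)) • t + ((ψ g : ℤ) - 1) • w = 0 := by
    rw [← sub_eq_zero] at hg
    rw [← hg]
    simp only [smul_sub, smul_smul, sub_smul, neg_smul, one_smul]
    abel
  have e3 := (h.ind _ _ e2)
  have e4 := unit_eq_of_dvd e3.2
  rw [e4, Units.val_one, one_mul, dvd_neg] at e3
  exact e3.1

theorem form_triv' (h : Form ρ t w χ ψ k) {g : G} (hg : ρ g t = t) : χ g = 1 := by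
  rw [h.gt] at hg
  have e2 : ((χ g : ℤ) - 1) • t + (0 : ℤ) • w = 0 := by
    rw [sub_smul, hg, one_smul, sub_self, zero_smul, add_zero]
  exact unit_eq_of_dvd (h.ind _ _ e2).1

end

/-- a function with `c (g h) = c g` for `h` in an open subset is locally constant -/
theorem isLocallyConstant_of {G X : Type*} [Group G] [TopologicalSpace G] [IsTopologicalGroup G]
    (c : G → X) (U : Set G) (hU : IsOpen U) (h1 : (1 : G) ∈ U) (hc : ∀ g, ∀ h ∈ U, c (g * h) = c g) :
    IsLocallyConstant c := by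
  rw [IsLocallyConstant.iff_exists_open]
  intro g
  refine ⟨(fun x => g⁻¹ * x) ⁻¹' U, hU.preimage (continuous_const_mul _), ?_, ?_⟩
  · change g⁻¹ * g ∈ U
    rw [inv_mul_cancel]
    exact h1
  · intro x hx
    have := hc g (g⁻¹ * x) hx
    rwa [mul_inv_cancel_left] at this

section

variable {K : Type*} [Field K] [CharZero K]

theorem zet_pow_three : zet K ^ 3 = 1 := by
  have hz := zet_root (K := K)
  linear_combination (zet K - 1) * hz

theorem zet_ne_zero : zet K ≠ 0 := by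
  intro h
  have hz := zet_root (K := K)
  rw [h] at hz
  norm_num at hz

theorem zet_zpow_of_dvd {m : ℤ} (h : (3 : ℤ) ∣ m) : zet K ^ m = 1 := by
  obtain ⟨c, rfl⟩ := h
  have e : zet K ^ (3 : ℤ) = 1 := by
    have := zet_pow_three (K := K)
    exact_mod_cast this
  rw [zpow_mul, e, one_zpow]

theorem zet_zpow_congr {m n : ℤ} (h : (3 : ℤ) ∣ m - n) : zet K ^ m = zet K ^ n := by
  have := zet_zpow_of_dvd (K := K) h
  rw [zpow_sub₀ zet_ne_zero, div_eq_one_iff_eq (zpow_ne_zero _ zet_ne_zero)] at this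
  exact this

theorem gal_zet (g : GK K) : g (zet K) = zet K ^ ((qch (-3 : K) g : ℤˣ) : ℤ) := by
  have h1 := qch_sqr (-3 : K) g
  have hz := zet_root (K := K)
  have h2 : g (sqr (-3 : K)) = 2 * g (zet K) + 1 := by
    rw [← zet_eq, map_add, map_mul, map_one, map_ofNat]
  rw [h2, ← zet_eq] at h1
  rcases Int.units_eq_one_or (qch (-3 : K) g) with h | h
  · rw [h] at h1 ⊢
    simp only [Units.val_one, one_zsmul] at h1
    rw [Units.val_one, zpow_one]
    linear_combination (1 / 2 : Kb K) * h1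
  · rw [h] at h1 ⊢
    simp only [Units.val_neg, Units.val_one, neg_zsmul, one_zsmul] at h1
    have h3 : g (zet K) = -zet K - 1 := by linear_combination (1 / 2 : Kb K) * h1
    rw [Units.val_neg, Units.val_one, zpow_neg_one, h3]
    apply eq_inv_of_mul_eq_one_left
    linear_combination -hz

/-- fixed elements come from `K` -/
theorem exists_of_fixed {x : Kb K} (h : ∀ g : GK K, g x = x) : ∃ y : K, algebraMap K (Kb K) y = x := by
  have := (InfiniteGalois.mem_bot_iff_fixed x).2 h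
  exact this

theorem qch_mul {d : K} (hd : d ≠ 0) : qch (-3 * d) = qch d * qch (-3 : K) := by
  ext g : 1
  apply qch_unique (r := sqr (-3 : K) * sqr d)
  · rw [mul_pow, sqr_sq, sqr_sq, map_mul]
  · exact mul_ne_zero (sqr_ne (by norm_num)) (sqr_ne hd)
  · rw [map_mul, qch_sqr, qch_sqr, MonoidHom.mul_apply, Units.val_mul, smul_mul_smul_comm,
      mul_comm ((qch d g : ℤˣ) : ℤ)]

/-- **KU2.** -/
theorem kummer_of
    (H90 : ∀ c : GK K → Kb K, (∀ g h, c (g * h) = c g * g (c h)) → (∀ g, c g ≠ 0) →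
      IsLocallyConstant c → ∃ r : Kb K, r ≠ 0 ∧ ∀ g : GK K, g r = c g * r)
    {M : Type*} [AddCommGroup M]
    (ρ : GK K →* AddMonoid.End M) (h3 : ∀ x : M, 3 • x = 0)
    (hρ : ∀ x : M, IsOpen {g : GK K | ρ g x = x})
    (N : AddSubgroup M) (hN : ∀ g, ∀ x ∈ N, ρ g x ∈ N) (χ : GK K →* ℤˣ)
    (h1 : Iso (subRep ρ N hN) (chRep χ)) (h2 : Iso (quoRep ρ N hN) (chRep (χ * qch (-3 : K)))) :
    ∃ d δ : K, d ≠ 0 ∧ δ ≠ 0 ∧ χ = qch d ∧ Iso ρ (torRep (E d 0 (b0 d δ))) := by
  obtain ⟨t, w, k, hf⟩ := exists_form ρ h3 N hN χ _ h1 h2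
  have hω : ∀ g, χ g * (χ * qch (-3 : K)) g = qch (-3 : K) g := by
    intro g
    rw [MonoidHom.mul_apply, ← mul_assoc, Int.units_mul_self, one_mul]
  have hone : ∀ x : M, (1 : GK K) ∈ {g : GK K | ρ g x = x} := by
    intro x
    change ρ 1 x = x
    rw [map_one]
    rfl
  -- the cube root
  have hcc : ∀ g h, (fun g => zet K ^ k g) (g * h) =
      (fun g => zet K ^ k g) g * g ((fun g => zet K ^ k g) h) := by
    intro g h
    change zet K ^ k (g * h) = zet K ^ k g * g (zet K ^ k h)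
    have := form_cocycle hf g h
    rw [hω] at this
    rw [zet_zpow_congr this, zpow_add₀ zet_ne_zero, map_zpow₀, gal_zet, zpow_mul]
  obtain ⟨θ, hθ0, hθ⟩ := H90 (fun g => zet K ^ k g) hcc (fun g => zpow_ne_zero _ zet_ne_zero)
    (isLocallyConstant_of _ _ (hρ w) (hone w) (fun g h hh => by
      have hh' : ρ h w = w := hh
      have h8 : zet K ^ k (g * h) = zet K ^ k g * g (zet K ^ k h) := hcc g h
      change zet K ^ k (g * h) = zet K ^ k g
      rw [h8, zet_zpow_of_dvd (form_triv hf hh'), map_one, mul_one]))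
  have hθg : ∀ g : GK K, g θ = zet K ^ k g * θ := hθ
  obtain ⟨δ, hδ⟩ := exists_of_fixed (x := θ ^ 3) (fun g => by
    have h9 : (3 : ℤ) ∣ k g * ((3 : ℕ) : ℤ) := ⟨k g, by push_cast; ring⟩
    rw [map_pow, hθg, mul_pow, ← zpow_natCast, ← zpow_mul, zet_zpow_of_dvd h9, one_mul])
  have hδ0 : δ ≠ 0 := by
    rintro rfl
    rw [map_zero] at hδ
    exact hθ0 (pow_eq_zero_iff (by norm_num) |>.1 hδ.symm)
  -- the square root
  have hc2 : ∀ g h : GK K, (fun g => (((χ g : ℤˣ) : ℤ) : Kb K)) (g * h) =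
      (fun g => (((χ g : ℤˣ) : ℤ) : Kb K)) g * g ((fun g => (((χ g : ℤˣ) : ℤ) : Kb K)) h) := by
    intro g h
    change (((χ (g * h) : ℤˣ) : ℤ) : Kb K) = (((χ g : ℤˣ) : ℤ) : Kb K) * g (((χ h : ℤˣ) : ℤ) : Kb K)
    rw [map_intCast, map_mul, Units.val_mul, Int.cast_mul]
  obtain ⟨r, hr0, hr⟩ := H90 (fun g => (((χ g : ℤˣ) : ℤ) : Kb K)) hc2 (fun g => by
      change (((χ g : ℤˣ) : ℤ) : Kb K) ≠ 0
      rcases Int.units_eq_one_or (χ g) with h | h <;> rw [h] <;> norm_num)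
    (isLocallyConstant_of _ _ (hρ t) (hone t) (fun g h hh => by
      have hh' : ρ h t = t := hh
      change (((χ (g * h) : ℤˣ) : ℤ) : Kb K) = (((χ g : ℤˣ) : ℤ) : Kb K)
      rw [map_mul, form_triv' hf hh', mul_one]))
  have hrg : ∀ g : GK K, g r = (((χ g : ℤˣ) : ℤ) : Kb K) * r := hr
  have hsq : ∀ u : ℤˣ, (((u : ℤ) : Kb K)) ^ 2 = 1 := by
    intro u
    rcases Int.units_eq_one_or u with h | h <;> rw [h] <;> norm_num
  obtain ⟨d, hd⟩ := exists_of_fixed (x := r ^ 2) (fun g => by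
    rw [map_pow, hrg, mul_pow, hsq, one_mul])
  have hd0 : d ≠ 0 := by
    rintro rfl
    rw [map_zero] at hd
    exact hr0 (pow_eq_zero_iff (by norm_num) |>.1 hd.symm)
  have hχ : χ = qch d := by
    ext g : 1
    symm
    apply qch_unique hd.symm hr0
    rw [hrg, zsmul_eq_mul]
  refine ⟨d, δ, hd0, hδ0, hχ, ?_⟩
  -- the comparison
  have hg := good0 hd0 hδ0
  have hθ' : θ ^ 3 = algebraMap K (Kb K) (del d 0 (b0 d δ)) := by rw [del0 hd0, hδ]
  obtain ⟨t', w', hf', -⟩ := form_E hg hθ'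
  have hR := rts_of hg (sqr_sq d) hθ'
  have hkk : ∀ g, (3 : ℤ) ∣ kk θ g - k g := by
    intro g
    have hz := zet_root (K := K)
    have hne : ∀ m : ℤ, zet K ^ m = 1 → (3 : ℤ) ∣ m := by
      intro m hm
      have e : m = 3 * (m / 3) + m % 3 := (Int.mul_ediv_add_emod m 3).symm
      have e1 : zet K ^ m = zet K ^ (m % 3) := zet_zpow_congr ⟨m / 3, by omega⟩
      rw [hm] at e1
      have h4 : m % 3 = 0 ∨ m % 3 = 1 ∨ m % 3 = 2 := by omega
      rcases h4 with h4 | h4 | h4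
      · omega
      · exfalso
        rw [h4, zpow_one] at e1
        rw [← e1] at hz
        norm_num at hz
      · exfalso
        rw [h4] at e1
        have e5 : zet K ^ 2 = 1 := by exact_mod_cast e1.symm
        have e6 : zet K = -2 := by linear_combination hz - e5
        rw [e6] at e5
        norm_num at e5
    have hgk : g θ = zet K ^ (kk θ g) * θ := by
      rcases kk_cases hR hθ' g with ⟨h5, h6⟩ | ⟨h5, h6⟩ | ⟨h5, h6⟩
      · rw [h5, zpow_zero, one_mul, h6]
      · rw [h5, zpow_one, h6]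
      · rw [h5, h6]
        have : zet K ^ (2 : ℤ) = zet K * zet K := by
          have : zet K ^ (2 : ℤ) = zet K ^ (2 : ℕ) := by norm_cast
          rw [this, pow_two]
        rw [this, mul_assoc]
    apply hne
    rw [hθg] at hgk
    have := mul_right_cancel₀ hθ0 hgk
    rw [zpow_sub₀ zet_ne_zero, ← this, div_self (zpow_ne_zero _ zet_ne_zero)]
  have hf2 : Form ρ t w (qch d) (qch (-3 * d)) (kk θ) := by
    refine ⟨hf.t3, hf.w3, hf.span, hf.ind, ?_, ?_⟩
    · intro g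
      rw [hf.gt, hχ]
    · intro g
      rw [hf.gw, qch_mul hd0, hχ]
      congr 1
      have h7 : kk θ g • t = k g • t := by
        rw [← sub_eq_zero, ← sub_smul]
        exact dvd3 hf.t3 (hkk g)
      rw [h7]
  exact hf2.iso hf'

end

end Pool.Agent.Helper69.RY
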