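import Pool.Agent.Helper69.RY.Kummer
import Pool.Agent.Helper99.IS.Hilbert90

/-! KU2, with Hilbert 90 of KU1. -/

set_option autoImplicit false

open WeierstrassCurve

namespace Pool.Agent.Helper69.RY

open Pool.Agent.Helper58.IQ

variable {K : Type*} [Field K] [CharZero K]

/-- Every extension of `F_3(χ ω)` by `F_3(χ)` is the 3-torsion of an elliptic curve over `K`. -/
theorem kummer {M : Type*} [AddCommGroup M]
    (ρ : GK K →* AddMonoid.End M) (h3 : ∀ x : M, 3 • x = 0)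
    (hρ : ∀ x : M, IsOpen {g : GK K | ρ g x = x})
    (N : AddSubgroup M) (hN : ∀ g, ∀ x ∈ N, ρ g x ∈ N) (χ : GK K →* ℤˣ)
    (h1 : Iso (subRep ρ N hN) (chRep χ)) (h2 : Iso (quoRep ρ N hN) (chRep (χ * qch (-3 : K)))) :
    ∃ d δ : K, d ≠ 0 ∧ δ ≠ 0 ∧ χ = qch d ∧ Iso ρ (torRep (E d 0 (b0 d δ))) :=
  kummer_of Pool.Agent.Helper99.IS.hilbert90 ρ h3 hρ N hN χ h1 h2

end Pool.Agent.Helper69.RY
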