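import Mathlib

/-! Devissage for isogenies (project of helper58 on MP_b529ab_nt): the `p`-torsion of two modules
which are related by a surjection with finite kernel is isomorphic or exchanges its two factors. -/

set_option autoImplicit false

namespace Pool.Agent.Helper69.RY

open Function

variable {G A B : Type*} [Group G] [AddCommGroup A] [AddCommGroup B] [DistribMulAction G A]
  [DistribMulAction G B]

/-- a multiple of a surjective map can be divided by it -/
theorem exists_lift {C : Type*} [AddCommGroup C] [DistribMulAction G C] (f : A →+ B)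
    (hf : ∀ (g : G) x, f (g • x) = g • f x) (hs : Surjective f) (h : A →+ C)
    (hh : ∀ (g : G) x, h (g • x) = g • h x) (hk : ∀ x, f x = 0 → h x = 0) :
    ∃ F : B →+ C, (∀ x, F (f x) = h x) ∧ ∀ (g : G) y, F (g • y) = g • F y := by
  have hle : f.ker ≤ h.ker := fun x hx => hk x hx
  refine ⟨f.liftOfSurjective hs ⟨h, hle⟩, fun x => ?_, ?_⟩
  · exact f.liftOfRightInverse_comp_apply (surjInv hs) (rightInverse_surjInv hs) ⟨h, hle⟩ x
  · intro g y
    obtain ⟨x, rfl⟩ := hs y
    have e : ∀ x, (f.liftOfSurjective hs ⟨h, hle⟩ : B →+ C) (f x) = h x := fun x =>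
      f.liftOfRightInverse_comp_apply (surjInv hs) (rightInverse_surjInv hs) ⟨h, hle⟩ x
    rw [← hf, e, e, hh]

/-- the restriction of an equivariant map to the `p`-torsion -/
theorem exists_restrict (p : ℕ) (TA : AddSubgroup A) (hTA : ∀ x, x ∈ TA ↔ p • x = 0)
    (TB : AddSubgroup B) (hTB : ∀ y, y ∈ TB ↔ p • y = 0) (f : A →+ B) :
    ∃ φ : TA →+ TB, ∀ x, ((φ x : TB) : B) = f x :=
  ⟨(f.comp TA.subtype).codRestrict TB (fun x => by
    rw [hTB, AddMonoidHom.comp_apply, ← map_nsmul, AddSubgroup.coe_subtype, (hTA _).1 x.2,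
      map_zero]), fun x => rfl⟩

/-- the case in which the kernel does not contain the `p`-torsion -/
theorem s7_core (p : ℕ) (hp : p.Prime) (TA : AddSubgroup A) (hTA : ∀ x, x ∈ TA ↔ p • x = 0)
    (TB : AddSubgroup B) (hTB : ∀ y, y ∈ TB ↔ p • y = 0) (hA : Nat.card TA = p ^ 2)
    (hB : Nat.card TB = p ^ 2) (hdiv : ∀ y : A, ∃ x, p • x = y) (f : A →+ B)
    (hf : ∀ (g : G) x, f (g • x) = g • f x) (hs : Surjective f) (hfin : Finite f.ker)
    (hne : ∃ a ∈ TA, f a ≠ 0) :
    (∃ φ : TA ≃+ TB, ∀ (g : G) (x y : TA), (y : A) = g • (x : A) →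
      ((φ y : TB) : B) = g • ((φ x : TB) : B)) ∨
    ∃ (φ : TA →+ TB) (ψ : TB →+ TA), (∀ (g : G) (x y : TA), (y : A) = g • (x : A) →
      ((φ y : TB) : B) = g • ((φ x : TB) : B)) ∧ (∀ (g : G) (x y : TB), (y : B) = g • (x : B) →
      ((ψ y : TA) : A) = g • ((ψ x : TA) : A)) ∧ φ.ker = ψ.range ∧ ψ.ker = φ.range ∧
      Nat.card φ.ker = p := by
  have hp0 : 0 < p := hp.pos
  have hTAfin : Finite TA := Nat.finite_of_card_ne_zero (by rw [hA]; positivity)
  have hTBfin : Finite TB := Nat.finite_of_card_ne_zero (by rw [hB]; positivity)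
  obtain ⟨φ, hφ⟩ := exists_restrict p TA hTA TB hTB f
  have hφg : ∀ (g : G) (x y : TA), (y : A) = g • (x : A) →
      ((φ y : TB) : B) = g • ((φ x : TB) : B) := by
    intro g x y h
    rw [hφ, hφ, h, hf]
  have hφ0 : ∀ x : TA, φ x = 0 ↔ f x = 0 := by
    intro x
    refine ⟨fun h => ?_, fun h => ?_⟩
    · rw [← hφ, h, ZeroMemClass.coe_zero]
    · ext
      rw [hφ, h, ZeroMemClass.coe_zero]
  -- the order of the kernel
  have hdvd : Nat.card φ.ker ∣ p ^ 2 := hA ▸ AddSubgroup.card_addSubgroup_dvd_card φ.ker
  obtain ⟨i, hi, hcard⟩ := (Nat.dvd_prime_pow hp).1 hdvd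
  have hi2 : i ≠ 2 := by
    rintro rfl
    have htop : φ.ker = ⊤ := by
      rw [← AddSubgroup.card_eq_iff_eq_top, hcard, hA]
    obtain ⟨a, ha, hfa⟩ := hne
    apply hfa
    have : (⟨a, ha⟩ : TA) ∈ φ.ker := by rw [htop]; exact AddSubgroup.mem_top _
    exact (hφ0 ⟨a, ha⟩).1 this
  have hi' : i = 0 ∨ i = 1 := by omega
  rcases hi' with rfl | rfl
  · left
    rw [pow_zero, AddSubgroup.card_eq_one, AddMonoidHom.ker_eq_bot_iff] at hcard
    have hbij : Bijective φ := (Nat.bijective_iff_injective_and_card φ).2 ⟨hcard, by rw [hA, hB]⟩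
    exact ⟨AddEquiv.ofBijective φ hbij, hφg⟩
  · right
    rw [pow_one] at hcard
    -- the exponent of the kernel of `f`
    set N := f.ker with hN
    have : Nontrivial φ.ker := by
      rw [← Finite.one_lt_card_iff_nontrivial, hcard]
      exact hp.one_lt
    obtain ⟨⟨a, ha⟩, ha0⟩ := exists_ne (0 : φ.ker)
    have haN : f (a : A) = 0 := (hφ0 a).1 ha
    have hane : (a : A) ≠ 0 := by
      intro h
      apply ha0
      ext
      exact h
    have hpa : p • (a : A) = 0 := (hTA _).1 a.2
    have hexp0 : AddMonoid.exponent N ≠ 0 := AddMonoid.exponent_ne_zero_of_finite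
    have hord : addOrderOf (⟨(a : A), haN⟩ : N) = p := by
      have hpr := Fact.mk hp
      apply addOrderOf_eq_prime
      · ext
        exact hpa
      · intro h
        exact hane (congrArg Subtype.val h)
    have hpe : p ∣ AddMonoid.exponent N := by
      have := AddMonoid.addOrder_dvd_exponent (⟨(a : A), haN⟩ : N)
      rwa [hord] at this
    obtain ⟨c, hc⟩ := hpe
    have hcN : ∀ x : A, f x = 0 → (c * p) • x = 0 := by
      intro x hx
      have := AddMonoid.exponent_nsmul_eq_zero (⟨x, hx⟩ : N)
      rw [hc, mul_comm] at this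
      exact congrArg Subtype.val this
    have hc0 : 0 < c := by
      rcases Nat.eq_zero_or_pos c with h | h
      · rw [h, mul_zero] at hc
        exact absurd hc hexp0
      · exact h
    have hcne : ∃ n : A, f n = 0 ∧ c • n ≠ 0 := by
      by_contra hcon
      push Not at hcon
      have h1 : AddMonoid.exponent N ≤ c := by
        apply AddMonoid.exponent_min' c hc0
        intro n
        ext
        exact hcon n n.2
      rw [hc] at h1
      have := hp.two_le
      nlinarith
    -- the map back
    obtain ⟨Ψ, hΨ, hΨg⟩ := exists_lift (G := G) f hf hs (nsmulAddMonoidHom (c * p) : A →+ A)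
      (fun g x => by
        change (c * p) • (g • x) = g • ((c * p) • x)
        exact (map_nsmul (DistribSMul.toAddMonoidHom A g) (c * p) x).symm) (fun x hx => hcN x hx)
    have hΨ' : ∀ x, Ψ (f x) = (c * p) • x := hΨ
    obtain ⟨ψ, hψ⟩ := exists_restrict p TB hTB TA hTA Ψ
    have hψ0 : ∀ x : TB, ψ x = 0 ↔ Ψ x = 0 := by
      intro x
      refine ⟨fun h => ?_, fun h => ?_⟩
      · rw [← hψ, h, ZeroMemClass.coe_zero]
      · ext
        rw [hψ, h, ZeroMemClass.coe_zero]
    refine ⟨φ, ψ, hφg, fun g x y h => by rw [hψ, hψ, h, hΨg], ?_, ?_, hcard⟩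
    · -- the range of `ψ` is a nonzero subgroup of the kernel of `φ`
      have hle : ψ.range ≤ φ.ker := by
        rintro _ ⟨b, rfl⟩
        rw [AddMonoidHom.mem_ker, hφ0, hψ]
        obtain ⟨x, hx⟩ := hs (b : B)
        rw [← hx, hΨ', mul_nsmul', map_nsmul, map_nsmul, hx, (hTB _).1 b.2, nsmul_zero]
      have hpr := Fact.mk hp
      symm
      apply AddSubgroup.eq_of_le_of_card_ge hle
      rw [hcard]
      have hd : Nat.card ψ.range ∣ p := by
        have := AddSubgroup.card_dvd_of_le hle
        rwa [hcard] at this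
      rcases (Nat.dvd_prime hp).1 hd with h | h
      · exfalso
        obtain ⟨n, hn, hcn⟩ := hcne
        obtain ⟨x, rfl⟩ := hdiv n
        rw [AddSubgroup.card_eq_one] at h
        have hfx : f x ∈ TB := by rw [hTB, ← map_nsmul, hn]
        have hmem : ψ ⟨f x, hfx⟩ ∈ ψ.range := ⟨_, rfl⟩
        rw [h, AddSubgroup.mem_bot, hψ0] at hmem
        rw [hΨ'] at hmem
        apply hcn
        rw [← mul_nsmul', hmem]
      · exact h.ge
    · -- counting in the kernel of `f`
      apply le_antisymm
      · intro b hb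
        rw [AddMonoidHom.mem_ker, hψ0] at hb
        obtain ⟨x, hx⟩ := hs (b : B)
        rw [← hx, hΨ', mul_nsmul'] at hb
        have hpx : f (p • x) = 0 := by rw [map_nsmul, hx, (hTB _).1 b.2]
        -- `p • x` is `p • n` with `n` in the kernel of `f`
        have hker : ∃ n : A, f n = 0 ∧ p • x = p • n := by
          let m : N →+ N := nsmulAddMonoidHom p
          let μ : N →+ N := nsmulAddMonoidHom c
          have hle : m.range ≤ μ.ker := by
            rintro _ ⟨n, rfl⟩
            rw [AddMonoidHom.mem_ker]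
            ext
            change c • (p • (n : A)) = 0
            rw [← mul_nsmul', hcN n n.2]
          have e1 : Nat.card m.ker * Nat.card m.range = Nat.card N := by
            rw [← AddSubgroup.card_mul_index m.ker, AddSubgroup.index_ker]
          have e2 : Nat.card μ.ker * Nat.card μ.range = Nat.card N := by
            rw [← AddSubgroup.card_mul_index μ.ker, AddSubgroup.index_ker]
          have hmk : Nat.card m.ker = p := by
            rw [← hcard]
            apply Nat.card_congr
            refine ⟨fun n => ⟨⟨(n : N), ?_⟩, ?_⟩, fun n => ⟨⟨((n : TA) : A), ?_⟩, ?_⟩, ?_, ?_⟩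
            · rw [hTA]
              exact congrArg Subtype.val n.2
            · rw [AddMonoidHom.mem_ker, hφ0]
              exact (n : N).2
            · exact (hφ0 _).1 n.2
            · rw [AddMonoidHom.mem_ker]
              ext
              exact (hTA _).1 (n : TA).2
            · intro n
              rfl
            · intro n
              rfl
          have hμr : Nat.card μ.range = p := by
            have hle' : μ.range ≤ m.ker := by
              rintro _ ⟨n, rfl⟩
              rw [AddMonoidHom.mem_ker]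
              ext
              change p • (c • (n : A)) = 0
              rw [← mul_nsmul', mul_comm, hcN n n.2]
            have hd : Nat.card μ.range ∣ p := by
              have := AddSubgroup.card_dvd_of_le hle'
              rwa [hmk] at this
            rcases (Nat.dvd_prime hp).1 hd with h | h
            · exfalso
              obtain ⟨n, hn, hcn⟩ := hcne
              rw [AddSubgroup.card_eq_one] at h
              have hmem : μ ⟨n, hn⟩ ∈ μ.range := ⟨_, rfl⟩
              rw [h, AddSubgroup.mem_bot] at hmem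
              exact hcn (congrArg Subtype.val hmem)
            · exact h
          have heq : m.range = μ.ker := by
            apply AddSubgroup.eq_of_le_of_card_ge hle
            rw [hmk] at e1
            rw [hμr] at e2
            have : p * Nat.card m.range = p * Nat.card μ.ker := by
              rw [e1, ← e2, mul_comm]
            exact (Nat.eq_of_mul_eq_mul_left hp0 this).ge
          have hmem : (⟨p • x, hpx⟩ : N) ∈ μ.ker := by
            rw [AddMonoidHom.mem_ker]
            ext
            exact hb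
          rw [← heq] at hmem
          obtain ⟨n, hn⟩ := hmem
          exact ⟨n, n.2, (congrArg Subtype.val hn).symm⟩
        obtain ⟨n, hn, hpn⟩ := hker
        have hxn : x - n ∈ TA := by rw [hTA, nsmul_sub, hpn, sub_self]
        refine ⟨⟨x - n, hxn⟩, ?_⟩
        ext
        rw [hφ]
        change f (x - n) = b
        rw [map_sub, hn, sub_zero, hx]
      · rintro _ ⟨a', rfl⟩
        rw [AddMonoidHom.mem_ker, hψ0, hφ, hΨ', mul_nsmul', (hTA _).1 a'.2, nsmul_zero]

/-- **S7.** Let `f : A → B` be an equivariant surjection with finite kernel, `A` divisible by the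
prime `p`, and let the `p`-torsion subgroups `TA`, `TB` have `p ^ 2` elements. Then `TA`, `TB` are
isomorphic or there are equivariant maps `φ : TA → TB`, `ψ : TB → TA`, each of which has as its
kernel the range of the other one, a subgroup with `p` elements. -/
theorem s7 (p : ℕ) (hp : p.Prime) (TA : AddSubgroup A) (hTA : ∀ x, x ∈ TA ↔ p • x = 0)
    (TB : AddSubgroup B) (hTB : ∀ y, y ∈ TB ↔ p • y = 0) (hA : Nat.card TA = p ^ 2)
    (hB : Nat.card TB = p ^ 2) (hdiv : ∀ y : A, ∃ x, p • x = y) (f : A →+ B)
    (hf : ∀ (g : G) x, f (g • x) = g • f x) (hs : Surjective f) (hfin : Finite f.ker) :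
    (∃ φ : TA ≃+ TB, ∀ (g : G) (x y : TA), (y : A) = g • (x : A) →
      ((φ y : TB) : B) = g • ((φ x : TB) : B)) ∨
    ∃ (φ : TA →+ TB) (ψ : TB →+ TA), (∀ (g : G) (x y : TA), (y : A) = g • (x : A) →
      ((φ y : TB) : B) = g • ((φ x : TB) : B)) ∧ (∀ (g : G) (x y : TB), (y : B) = g • (x : B) →
      ((ψ y : TA) : A) = g • ((ψ x : TA) : A)) ∧ φ.ker = ψ.range ∧ ψ.ker = φ.range ∧
      Nat.card φ.ker = p := by
  classical
  have hp0 : 0 < p := hp.pos
  have hTAfin : Finite TA := Nat.finite_of_card_ne_zero (by rw [hA]; positivity)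
  have hdivk : ∀ k : ℕ, ∀ y : A, ∃ x, p ^ k • x = y := by
    intro k
    induction k with
    | zero => exact fun y => ⟨y, by rw [pow_zero, one_nsmul]⟩
    | succ k ih =>
      intro y
      obtain ⟨z, rfl⟩ := hdiv y
      obtain ⟨x, rfl⟩ := ih z
      exact ⟨x, by rw [pow_succ', mul_nsmul']⟩
  -- some `p ^ k`-torsion is not in the kernel
  have hex : ∃ k, ∃ x, p ^ k • x = 0 ∧ f x ≠ 0 := by
    by_contra hcon
    push Not at hcon
    have : Nontrivial TA := by
      rw [← Finite.one_lt_card_iff_nontrivial, hA]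
      exact one_lt_pow₀ hp.one_lt two_ne_zero
    obtain ⟨⟨a, ha⟩, ha0⟩ := exists_ne (0 : TA)
    have hane : a ≠ 0 := fun h => ha0 (by ext; exact h)
    choose X hX using fun k => hdivk k a
    have hXN : ∀ k, f (X k) = 0 := by
      intro k
      apply hcon (k + 1)
      rw [pow_succ', mul_nsmul', hX, (hTA _).1 ha]
    have hinj : Injective (fun k => (⟨X k, hXN k⟩ : f.ker)) := by
      have hlt : ∀ i j, i < j → X i ≠ X j := by
        intro i j hij h
        have h1 := hX j
        rw [← h] at h1
        obtain ⟨l, rfl⟩ : ∃ l, j = i + (l + 1) := ⟨j - i - 1, by omega⟩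
        rw [pow_add, mul_comm, mul_nsmul', hX, pow_succ, mul_nsmul', (hTA _).1 ha,
          nsmul_zero] at h1
        exact hane h1.symm
      intro i j hij
      have hij' : X i = X j := congrArg Subtype.val hij
      rcases lt_trichotomy i j with h | h | h
      · exact absurd hij' (hlt i j h)
      · exact h
      · exact absurd hij'.symm (hlt j i h)
    exact not_injective_infinite_finite _ hinj
  -- the first one
  have hk := Nat.find_spec hex
  have hmin := fun m => Nat.find_min hex (m := m)
  generalize Nat.find hex = k0 at hk hmin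
  obtain ⟨x, hx, hfx⟩ := hk
  have hk0 : k0 ≠ 0 := by
    rintro rfl
    rw [pow_zero, one_nsmul] at hx
    rw [hx, map_zero] at hfx
    exact hfx rfl
  obtain ⟨k, rfl⟩ : ∃ k, k0 = k + 1 := ⟨k0 - 1, by omega⟩
  have hQ : ∀ y, p ^ k • y = 0 → f y = 0 := by
    intro y hy
    by_contra hne
    exact hmin k (Nat.lt_succ_self k) ⟨y, hy, hne⟩
  -- divide `f` by `p ^ k`
  have hms : Surjective (nsmulAddMonoidHom (p ^ k) : A →+ A) := hdivk k
  obtain ⟨f', hf', hf'g⟩ := exists_lift (G := G) (nsmulAddMonoidHom (p ^ k) : A →+ A)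
    (fun g x => by
      change (p ^ k) • (g • x) = g • ((p ^ k) • x)
      exact (map_nsmul (DistribSMul.toAddMonoidHom A g) (p ^ k) x).symm) hms f hf hQ
  have hf'' : ∀ x, f' (p ^ k • x) = f x := hf'
  refine s7_core (G := G) p hp TA hTA TB hTB hA hB hdiv f' hf'g ?_ ?_ ?_
  · intro b
    obtain ⟨y, rfl⟩ := hs b
    exact ⟨p ^ k • y, hf'' y⟩
  · have hfs : Surjective (fun n : f.ker => (⟨p ^ k • (n : A), by
        rw [AddMonoidHom.mem_ker, hf'']; exact n.2⟩ : f'.ker)) := by
      rintro ⟨a, ha⟩
      obtain ⟨y, rfl⟩ := hdivk k a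
      refine ⟨⟨y, ?_⟩, rfl⟩
      rw [AddMonoidHom.mem_ker, hf''] at ha
      exact ha
    exact Finite.of_surjective _ hfs
  · refine ⟨p ^ k • x, ?_, ?_⟩
    · rw [hTA, ← mul_nsmul', ← pow_succ', hx]
    · rw [hf'']
      exact hfx

end Pool.Agent.Helper69.RY
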